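import Mathlib

open Set Filter Topology
open scoped ContDiff

noncomputable section
set_option linter.unusedSectionVars false
namespace H51.Osc

variable {X : Type*} [NormedAddCommGroup X] [NormedSpace ℝ X]

/-- directional derivative -/
def pd (e : X) (F : X → ℝ) (z : X) : ℝ := fderiv ℝ F z e

/-- `Re (Z(1/lam, z) * exp(i lam ψ(z)))` -/
def osc (ψ : X → ℝ) (Z : ℝ × X → ℂ) (lam : ℝ) (z : X) : ℝ :=
  (Z (lam⁻¹, z) * Complex.exp (((lam * ψ z : ℝ) : ℂ) * Complex.I)).re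

/-- `ε ∂_e + i ψ_e` -/
def Dd (ψ : X → ℝ) (e : X) (Z : ℝ × X → ℂ) : ℝ × X → ℂ := fun p =>
  (p.1 : ℂ) * fderiv ℝ Z p (0, e) + Complex.I * ((fderiv ℝ ψ p.2 e : ℝ) : ℂ) * Z p

theorem pd_contDiff {e : X} {F : X → ℝ} (hF : ContDiff ℝ ∞ F) : ContDiff ℝ ∞ (pd e F) := by
  unfold pd
  exact (hF.fderiv_right (m := ∞) (by norm_cast)).clm_apply contDiff_const

theorem Dd_contDiff {ψ : X → ℝ} {e : X} {Z : ℝ × X → ℂ} (hψ : ContDiff ℝ ∞ ψ)
    (hZ : ContDiff ℝ ∞ Z) : ContDiff ℝ ∞ (Dd ψ e Z) := by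
  unfold Dd
  have h1 : ContDiff ℝ ∞ (fun p : ℝ × X => fderiv ℝ Z p (0, e)) :=
    (hZ.fderiv_right (m := ∞) (by norm_cast)).clm_apply contDiff_const
  have h2 : ContDiff ℝ ∞ (fun p : ℝ × X => ((p.1 : ℝ) : ℂ)) :=
    Complex.ofRealCLM.contDiff.comp contDiff_fst
  have h3 : ContDiff ℝ ∞ (fun p : ℝ × X => ((fderiv ℝ ψ p.2 e : ℝ) : ℂ)) :=
    Complex.ofRealCLM.contDiff.comp
      (((hψ.fderiv_right (m := ∞) (by norm_cast)).clm_apply contDiff_const).comp contDiff_snd)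
  exact (h2.mul h1).add ((contDiff_const.mul h3).mul hZ)

theorem osc_contDiff {ψ : X → ℝ} {Z : ℝ × X → ℂ} (hψ : ContDiff ℝ ∞ ψ)
    (hZ : ContDiff ℝ ∞ Z) (lam : ℝ) : ContDiff ℝ ∞ (osc ψ Z lam) := by
  have h : ContDiff ℝ ∞ (fun z : X => Z (lam⁻¹, z) * Complex.exp (((lam * ψ z : ℝ) : ℂ) * Complex.I)) := by
    apply ContDiff.mul
    · exact hZ.comp (contDiff_const.prodMk contDiff_id)
    · apply ContDiff.cexp
      apply ContDiff.mul _ contDiff_const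
      exact Complex.ofRealCLM.contDiff.comp (contDiff_const.mul hψ)
  exact Complex.reCLM.contDiff.comp h

theorem pd_osc {ψ : X → ℝ} {Z : ℝ × X → ℂ} (hψ : Differentiable ℝ ψ)
    (hZ : Differentiable ℝ Z) {lam : ℝ} (hl : lam ≠ 0) (e : X) :
    pd e (osc ψ Z lam) = fun z => lam * osc ψ (Dd ψ e Z) lam z := by
  funext z
  have h1 : HasFDerivAt (fun z : X => Z (lam⁻¹, z))
      ((fderiv ℝ Z (lam⁻¹, z)).comp (ContinuousLinearMap.inr ℝ ℝ X)) z := by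
    have := (hZ (lam⁻¹, z)).hasFDerivAt.comp z (hasFDerivAt_prodMk_right (lam⁻¹) z)
    exact this
  have h2 : HasFDerivAt (fun z : X => Complex.exp (((lam * ψ z : ℝ) : ℂ) * Complex.I))
      (Complex.exp (((lam * ψ z : ℝ) : ℂ) * Complex.I) •
        ((Complex.I : ℂ) • (Complex.ofRealCLM.comp (lam • fderiv ℝ ψ z)))) z := by
    have h3 : HasFDerivAt (fun z : X => ((lam * ψ z : ℝ) : ℂ))
        (Complex.ofRealCLM.comp (lam • fderiv ℝ ψ z)) z := by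
      have := (Complex.ofRealCLM.hasFDerivAt (x := lam * ψ z)).comp z
        ((hψ z).hasFDerivAt.const_mul lam)
      exact this
    have h4 := h3.mul_const Complex.I
    exact h4.cexp
  have h3 := Complex.reCLM.hasFDerivAt (x := Z (lam⁻¹, z) * Complex.exp (((lam * ψ z : ℝ) : ℂ) * Complex.I))
  have h4 := h3.comp z (h1.mul h2)
  have h5 : HasFDerivAt (osc ψ Z lam) _ z := h4
  unfold pd
  rw [h5.fderiv]
  have hl' : (lam : ℂ) ≠ 0 := by exact_mod_cast hl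
  simp only [ContinuousLinearMap.comp_apply, Dd, osc, add_apply,
    smul_apply, ContinuousLinearMap.inr_apply, Complex.reCLM_apply,
    Complex.ofRealCLM_apply, smul_eq_mul]
  rw [← Complex.re_ofReal_mul]
  congr 1
  push_cast
  field_simp
  ring

theorem osc_add (ψ : X → ℝ) (Z₁ Z₂ : ℝ × X → ℂ) (lam : ℝ) (z : X) :
    osc ψ (fun p => Z₁ p + Z₂ p) lam z = osc ψ Z₁ lam z + osc ψ Z₂ lam z := by
  simp only [osc, add_mul, Complex.add_re]

theorem osc_sub (ψ : X → ℝ) (Z₁ Z₂ : ℝ × X → ℂ) (lam : ℝ) (z : X) :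
    osc ψ (fun p => Z₁ p - Z₂ p) lam z = osc ψ Z₁ lam z - osc ψ Z₂ lam z := by
  simp only [osc, sub_mul, Complex.sub_re]

theorem osc_neg (ψ : X → ℝ) (Z₁ : ℝ × X → ℂ) (lam : ℝ) (z : X) :
    osc ψ (fun p => - Z₁ p) lam z = - osc ψ Z₁ lam z := by
  simp only [osc, neg_mul, Complex.neg_re]

theorem osc_sum {ι : Type*} (s : Finset ι) (ψ : X → ℝ) (Z : ι → ℝ × X → ℂ) (lam : ℝ) (z : X) :
    osc ψ (fun p => ∑ i ∈ s, Z i p) lam z = ∑ i ∈ s, osc ψ (Z i) lam z := by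
  simp only [osc, Finset.sum_mul, Complex.re_sum]

theorem osc_ofReal (ψ : X → ℝ) (G : X → ℝ) (lam : ℝ) (z : X) :
    osc ψ (fun p => ((G p.2 : ℝ) : ℂ)) lam z = G z * Real.cos (lam * ψ z) := by
  simp only [osc, Complex.re_ofReal_mul, Complex.exp_ofReal_mul_I_re]

theorem osc_norm_le (ψ : X → ℝ) (Z : ℝ × X → ℂ) (lam : ℝ) (z : X) :
    |osc ψ Z lam z| ≤ ‖Z (lam⁻¹, z)‖ := by
  unfold osc
  refine (Complex.abs_re_le_norm _).trans ?_
  rw [norm_mul, Complex.norm_exp_ofReal_mul_I, mul_one]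

theorem Dd_zero (ψ : X → ℝ) (e : X) (Z : ℝ × X → ℂ) (z : X) :
    Dd ψ e Z (0, z) = Complex.I * ((fderiv ℝ ψ z e : ℝ) : ℂ) * Z (0, z) := by
  simp [Dd]

theorem pd_comm {F : X → ℝ} (hF : ContDiff ℝ ∞ F) (a b : X) :
    pd a (pd b F) = pd b (pd a F) := by
  funext z
  have h1 : ∀ e : X, HasFDerivAt (fun z => fderiv ℝ F z e)
      ((ContinuousLinearMap.apply ℝ ℝ e).comp (fderiv ℝ (fderiv ℝ F) z)) z := by
    intro e
    have hd : DifferentiableAt ℝ (fderiv ℝ F) z :=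
      ((hF.fderiv_right (m := 1) (by norm_cast)).differentiable (by norm_num)) z
    have := ((ContinuousLinearMap.apply ℝ ℝ e).hasFDerivAt (x := fderiv ℝ F z)).comp z hd.hasFDerivAt
    exact this
  have h2 : IsSymmSndFDerivAt ℝ F z := by
    apply ContDiffAt.isSymmSndFDerivAt (n := ∞) hF.contDiffAt
    simp only [minSmoothness_of_isRCLikeNormedField]
    exact WithTop.coe_le_coe.2 le_top
  unfold pd
  rw [(h1 b).fderiv, (h1 a).fderiv]
  simp only [ContinuousLinearMap.comp_apply, ContinuousLinearMap.apply_apply]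
  exact h2 a b


/-! ### operators commute with linear operations -/

theorem pd_const_mul {e : X} {F : X → ℝ} (hF : Differentiable ℝ F) (c : ℝ) :
    pd e (fun z => c * F z) = fun z => c * pd e F z := by
  funext z
  unfold pd
  have := (hF z).hasFDerivAt.const_mul c
  rw [this.fderiv]
  simp

theorem pd_sub {e : X} {F G : X → ℝ} (hF : Differentiable ℝ F) (hG : Differentiable ℝ G) :
    pd e (fun z => F z - G z) = fun z => pd e F z - pd e G z := by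
  funext z
  unfold pd
  have := (hF z).hasFDerivAt.sub (hG z).hasFDerivAt
  have h2 : HasFDerivAt (fun z => F z - G z) _ z := this
  rw [h2.fderiv]
  simp

theorem pd_add {e : X} {F G : X → ℝ} (hF : Differentiable ℝ F) (hG : Differentiable ℝ G) :
    pd e (fun z => F z + G z) = fun z => pd e F z + pd e G z := by
  funext z
  unfold pd
  have := (hF z).hasFDerivAt.add (hG z).hasFDerivAt
  have h2 : HasFDerivAt (fun z => F z + G z) _ z := this
  rw [h2.fderiv]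
  simp

theorem pd_sum {ι : Type*} (s : Finset ι) {e : X} {F : ι → X → ℝ}
    (hF : ∀ i, Differentiable ℝ (F i)) :
    pd e (fun z => ∑ i ∈ s, F i z) = fun z => ∑ i ∈ s, pd e (F i) z := by
  funext z
  unfold pd
  have h2 : HasFDerivAt (fun z => ∑ i ∈ s, F i z) (∑ i ∈ s, fderiv ℝ (F i) z) z :=
    HasFDerivAt.fun_sum (fun i _ => (hF i z).hasFDerivAt)
  rw [h2.fderiv]
  simp

/-! ### supports -/

theorem pd_eq_zero_of_open {e : X} {F : X → ℝ} {U : Set X} (hU : IsOpen U)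
    (h : ∀ z ∈ U, F z = 0) : ∀ z ∈ U, pd e F z = 0 := by
  intro z hz
  unfold pd
  have : F =ᶠ[𝓝 z] fun _ => 0 := by
    filter_upwards [hU.mem_nhds hz] with w hw using h w hw
  rw [this.fderiv_eq]
  simp

/-! ### bounds on compact sets -/

theorem exists_bound {K : Set X} (hK : IsCompact K) {Z : ℝ × X → ℂ} (hZ : Continuous Z) :
    ∃ C : ℝ, 0 ≤ C ∧ ∀ ε ∈ Icc (0 : ℝ) 1, ∀ z ∈ K, ‖Z (ε, z)‖ ≤ C := by
  obtain ⟨C, hC⟩ := ((isCompact_Icc (a := (0 : ℝ)) (b := 1)).prod hK).exists_bound_of_continuousOn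
    hZ.continuousOn
  refine ⟨max C 0, le_max_right _ _, fun ε hε z hz => (hC (ε, z) ⟨hε, hz⟩).trans (le_max_left _ _)⟩

theorem exists_bound_of_zero {K : Set X} (hK : IsCompact K) {Z : ℝ × X → ℂ}
    (hZ : ContDiff ℝ ∞ Z) (h0 : ∀ z, Z (0, z) = 0) :
    ∃ C : ℝ, 0 ≤ C ∧ ∀ ε ∈ Icc (0 : ℝ) 1, ∀ z ∈ K, ‖Z (ε, z)‖ ≤ C * ε := by
  have hc : Continuous (fun p : ℝ × X => fderiv ℝ Z p (1, 0)) :=
    ((hZ.fderiv_right (m := 0) (by norm_cast)).continuous).clm_apply continuous_const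
  obtain ⟨C, hC0, hC⟩ := exists_bound hK hc
  refine ⟨C, hC0, fun ε hε z hz => ?_⟩
  have hd : ∀ s ∈ Icc (0 : ℝ) 1, HasDerivWithinAt (fun s : ℝ => Z (s, z))
      (fderiv ℝ Z (s, z) (1, 0)) (Icc (0 : ℝ) 1) s := by
    intro s _
    have h1 := ((hZ.differentiable (by norm_num)) (s, z)).hasFDerivAt.comp_hasDerivAt s
      ((hasDerivAt_id s).prodMk (hasDerivAt_const s z))
    exact h1.hasDerivWithinAt
  have := Convex.norm_image_sub_le_of_norm_hasDerivWithin_le (f := fun s : ℝ => Z (s, z))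
    (f' := fun s => fderiv ℝ Z (s, z) (1, 0)) (s := Icc (0 : ℝ) 1) (C := C) hd
    (fun s hs => hC s hs z hz) (convex_Icc 0 1) (left_mem_Icc.2 zero_le_one) hε
  simp only [h0, sub_zero] at this
  rwa [Real.norm_of_nonneg hε.1] at this

theorem norm_fderiv_osc_le {ψ : X → ℝ} {Z : ℝ × X → ℂ} (hψ : Differentiable ℝ ψ)
    (hZ : Differentiable ℝ Z) {lam : ℝ} (hl : 1 ≤ lam) (z : X) :
    ‖fderiv ℝ (osc ψ Z lam) z‖ ≤
      lam * (‖fderiv ℝ Z (lam⁻¹, z)‖ + ‖fderiv ℝ ψ z‖ * ‖Z (lam⁻¹, z)‖) := by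
  have hl0 : 0 < lam := lt_of_lt_of_le one_pos hl
  apply ContinuousLinearMap.opNorm_le_bound _ (by positivity)
  intro e
  have h1 : fderiv ℝ (osc ψ Z lam) z e = lam * osc ψ (Dd ψ e Z) lam z :=
    congrFun (pd_osc hψ hZ hl0.ne' e) z
  rw [h1, norm_mul, Real.norm_of_nonneg hl0.le, mul_assoc]
  apply mul_le_mul_of_nonneg_left _ hl0.le
  refine (osc_norm_le _ _ _ _).trans ?_
  unfold Dd
  refine (norm_add_le _ _).trans ?_
  rw [add_mul]
  apply add_le_add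
  · rw [norm_mul]
    have h2 : ‖((lam⁻¹ : ℝ) : ℂ)‖ ≤ 1 := by
      rw [Complex.norm_real, Real.norm_of_nonneg (by positivity)]
      exact inv_le_one_of_one_le₀ hl
    have h3 : ‖fderiv ℝ Z (lam⁻¹, z) (0, e)‖ ≤ ‖fderiv ℝ Z (lam⁻¹, z)‖ * ‖e‖ := by
      refine (ContinuousLinearMap.le_opNorm _ _).trans ?_
      gcongr
      simp
    calc _ ≤ 1 * (‖fderiv ℝ Z (lam⁻¹, z)‖ * ‖e‖) := by
          apply mul_le_mul h2 h3 (norm_nonneg _) zero_le_one
      _ = _ := one_mul _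
  · rw [norm_mul, norm_mul, Complex.norm_I, one_mul, Complex.norm_real]
    have h3 : ‖fderiv ℝ ψ z e‖ ≤ ‖fderiv ℝ ψ z‖ * ‖e‖ := ContinuousLinearMap.le_opNorm _ _
    calc _ ≤ (‖fderiv ℝ ψ z‖ * ‖e‖) * ‖Z (lam⁻¹, z)‖ := by gcongr
      _ = _ := by ring

theorem pd2_osc {ψ : X → ℝ} {Z : ℝ × X → ℂ} (hψ : ContDiff ℝ ∞ ψ)
    (hZ : ContDiff ℝ ∞ Z) {lam : ℝ} (hl : lam ≠ 0) (a c : X) :
    pd a (pd c (osc ψ Z lam)) = fun z => lam ^ 2 * osc ψ (Dd ψ a (Dd ψ c Z)) lam z := by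
  have hn : (∞ : WithTop ℕ∞) ≠ 0 := by norm_num
  rw [pd_osc (hψ.differentiable hn) (hZ.differentiable hn) hl c]
  rw [pd_const_mul ((osc_contDiff hψ (Dd_contDiff hψ hZ) lam).differentiable hn)]
  rw [pd_osc (hψ.differentiable hn) ((Dd_contDiff hψ hZ).differentiable hn) hl a]
  funext z
  ring

/-! ### the corrector for one phase -/

/-- square of the norm of the spatial gradient -/
def g2 (b : Fin 3 → X) (ψ : X → ℝ) (z : X) : ℝ := ∑ j, (pd (b j) ψ z) ^ 2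

def gG (b : Fin 3 → X) (ψ : X → ℝ) (G : Fin 3 → X → ℝ) (z : X) : ℝ :=
  ∑ j, pd (b j) ψ z * G j z

def Zr (G : X → ℝ) : ℝ × X → ℂ := fun p => ((G p.2 : ℝ) : ℂ)

theorem Zr_contDiff {G : X → ℝ} (hG : ContDiff ℝ ∞ G) : ContDiff ℝ ∞ (Zr G) :=
  Complex.ofRealCLM.contDiff.comp (hG.comp contDiff_snd)

def WW (ψ : X → ℝ) (G : X → ℝ) (lam : ℝ) (z : X) : ℝ := G z * Real.cos (lam * ψ z)

theorem WW_eq (ψ : X → ℝ) (G : X → ℝ) (lam : ℝ) : WW ψ G lam = osc ψ (Zr G) lam := by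
  funext z
  exact (osc_ofReal ψ G lam z).symm

theorem WW_contDiff {ψ : X → ℝ} {G : X → ℝ} (hψ : ContDiff ℝ ∞ ψ) (hG : ContDiff ℝ ∞ G)
    (lam : ℝ) : ContDiff ℝ ∞ (WW ψ G lam) := by
  rw [WW_eq]
  exact osc_contDiff hψ (Zr_contDiff hG) lam

def vv (b : Fin 3 → X) (ψ : X → ℝ) (G : Fin 3 → X → ℝ) (lam : ℝ) (k : Fin 3) (z : X) : ℝ :=
  (lam⁻¹) ^ 4 * ∑ j, (pd (b k) (pd (b j) (WW ψ (G j) lam)) z
    - pd (b j) (pd (b j) (WW ψ (G k) lam)) z)

def qq (b : Fin 3 → X) (ψ : X → ℝ) (G : Fin 3 → X → ℝ) (lam : ℝ) (z : X) : ℝ :=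
  lam⁻¹ * (g2 b ψ z * gG b ψ G z * Real.sin (lam * ψ z))

def Zq (b : Fin 3 → X) (ψ : X → ℝ) (G : Fin 3 → X → ℝ) : ℝ × X → ℂ :=
  fun p => -Complex.I * ((g2 b ψ p.2 * gG b ψ G p.2 : ℝ) : ℂ)

def Zv (b : Fin 3 → X) (ψ : X → ℝ) (G : Fin 3 → X → ℝ) (k : Fin 3) : ℝ × X → ℂ :=
  fun p => ∑ j, (Dd ψ (b k) (Dd ψ (b j) (Zr (G j))) p - Dd ψ (b j) (Dd ψ (b j) (Zr (G k))) p)

variable {b : Fin 3 → X} {ψ : X → ℝ} {G : Fin 3 → X → ℝ}

theorem g2_contDiff (hψ : ContDiff ℝ ∞ ψ) : ContDiff ℝ ∞ (g2 b ψ) := by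
  unfold g2
  exact ContDiff.sum fun j _ => (pd_contDiff hψ).pow 2

theorem gG_contDiff (hψ : ContDiff ℝ ∞ ψ) (hG : ∀ k, ContDiff ℝ ∞ (G k)) :
    ContDiff ℝ ∞ (gG b ψ G) := by
  unfold gG
  exact ContDiff.sum fun j _ => (pd_contDiff hψ).mul (hG j)

theorem Zq_contDiff (hψ : ContDiff ℝ ∞ ψ) (hG : ∀ k, ContDiff ℝ ∞ (G k)) :
    ContDiff ℝ ∞ (Zq b ψ G) := by
  unfold Zq
  apply contDiff_const.mul
  exact Complex.ofRealCLM.contDiff.comp
    (((g2_contDiff hψ).comp contDiff_snd).mul ((gG_contDiff hψ hG).comp contDiff_snd))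

theorem Zv_contDiff (hψ : ContDiff ℝ ∞ ψ) (hG : ∀ k, ContDiff ℝ ∞ (G k)) (k : Fin 3) :
    ContDiff ℝ ∞ (Zv b ψ G k) := by
  unfold Zv
  exact ContDiff.sum fun j _ =>
    (Dd_contDiff hψ (Dd_contDiff hψ (Zr_contDiff (hG j)))).sub
      (Dd_contDiff hψ (Dd_contDiff hψ (Zr_contDiff (hG k))))

theorem vv_contDiff (hψ : ContDiff ℝ ∞ ψ) (hG : ∀ k, ContDiff ℝ ∞ (G k)) (lam : ℝ)
    (k : Fin 3) : ContDiff ℝ ∞ (vv b ψ G lam k) := by
  unfold vv
  apply contDiff_const.mul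
  exact ContDiff.sum fun j _ =>
    (pd_contDiff (pd_contDiff (WW_contDiff hψ (hG j) lam))).sub
      (pd_contDiff (pd_contDiff (WW_contDiff hψ (hG k) lam)))

theorem qq_contDiff (hψ : ContDiff ℝ ∞ ψ) (hG : ∀ k, ContDiff ℝ ∞ (G k)) (lam : ℝ) :
    ContDiff ℝ ∞ (qq b ψ G lam) := by
  unfold qq
  exact contDiff_const.mul (((g2_contDiff hψ).mul (gG_contDiff hψ hG)).mul
    (Real.contDiff_sin.comp (contDiff_const.mul hψ)))

theorem qq_eq (b : Fin 3 → X) (ψ : X → ℝ) (G : Fin 3 → X → ℝ) (lam : ℝ) :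
    qq b ψ G lam = fun z => lam⁻¹ * osc ψ (Zq b ψ G) lam z := by
  funext z
  unfold qq osc Zq
  congr 1
  simp only [Complex.mul_re, Complex.mul_im, Complex.neg_re, Complex.neg_im, Complex.I_re,
    Complex.I_im, Complex.ofReal_re, Complex.ofReal_im, Complex.exp_ofReal_mul_I_re,
    Complex.exp_ofReal_mul_I_im]
  ring

theorem vv_eq (hψ : ContDiff ℝ ∞ ψ) (hG : ∀ k, ContDiff ℝ ∞ (G k)) {lam : ℝ} (hl : lam ≠ 0)
    (k : Fin 3) : vv b ψ G lam k = fun z => (lam⁻¹) ^ 2 * osc ψ (Zv b ψ G k) lam z := by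
  funext z
  unfold vv Zv
  rw [osc_sum]
  simp only [osc_sub]
  simp only [WW_eq]
  simp only [pd2_osc hψ (Zr_contDiff (hG _)) hl]
  simp only [← mul_sub, ← Finset.mul_sum]
  rw [← mul_assoc]
  congr 1
  field_simp

theorem div_vv (hψ : ContDiff ℝ ∞ ψ) (hG : ∀ k, ContDiff ℝ ∞ (G k)) (lam : ℝ) (z : X) :
    ∑ k, pd (b k) (vv b ψ G lam k) z = 0 := by
  have hn : (∞ : WithTop ℕ∞) ≠ 0 := by norm_num
  have hW : ∀ k, ContDiff ℝ ∞ (WW ψ (G k) lam) := fun k => WW_contDiff hψ (hG k) lam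
  have h1 : ∀ k, pd (b k) (vv b ψ G lam k) z = (lam⁻¹) ^ 4 *
      ∑ j, (pd (b k) (pd (b k) (pd (b j) (WW ψ (G j) lam))) z
        - pd (b k) (pd (b j) (pd (b j) (WW ψ (G k) lam))) z) := by
    intro k
    unfold vv
    rw [pd_const_mul]
    · dsimp only
      congr 1
      rw [pd_sum]
      · apply Finset.sum_congr rfl
        intro j _
        rw [pd_sub]
        · exact (pd_contDiff (pd_contDiff (hW j))).differentiable hn
        · exact (pd_contDiff (pd_contDiff (hW k))).differentiable hn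
      · intro j
        exact ((pd_contDiff (pd_contDiff (hW j))).sub (pd_contDiff (pd_contDiff (hW k)))).differentiable hn
    · exact (ContDiff.sum fun j _ =>
        (pd_contDiff (pd_contDiff (hW j))).sub (pd_contDiff (pd_contDiff (hW k)))).differentiable hn
  simp only [h1]
  rw [← Finset.mul_sum]
  have h2 : ∀ k j, pd (b k) (pd (b k) (pd (b j) (WW ψ (G j) lam))) z
      = pd (b j) (pd (b k) (pd (b k) (WW ψ (G j) lam))) z := by
    intro k j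
    rw [pd_comm (hW j) (b k) (b j), pd_comm (pd_contDiff (hW j)) (b k) (b j)]
  simp only [Finset.sum_sub_distrib]
  rw [Finset.sum_comm]
  rw [Finset.sum_congr rfl fun y _ => Finset.sum_congr rfl fun x _ => h2 x y]
  rw [sub_self, mul_zero]

/-- the error amplitude -/
def Zerr (b : Fin 3 → X) (ψ : X → ℝ) (G : Fin 3 → X → ℝ) (k : Fin 3) : ℝ × X → ℂ := fun p =>
  (- ∑ l, Dd ψ (b l) (Dd ψ (b l) (Zv b ψ G k)) p) + Dd ψ (b k) (Zq b ψ G) p
    - Zr (fun z => (g2 b ψ z) ^ 2 * G k z) p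

theorem Zerr_contDiff (hψ : ContDiff ℝ ∞ ψ) (hG : ∀ k, ContDiff ℝ ∞ (G k)) (k : Fin 3) :
    ContDiff ℝ ∞ (Zerr b ψ G k) := by
  unfold Zerr
  exact ((ContDiff.sum fun l _ => Dd_contDiff hψ (Dd_contDiff hψ (Zv_contDiff hψ hG k))).neg.add
    (Dd_contDiff hψ (Zq_contDiff hψ hG))).sub
      (Zr_contDiff (((g2_contDiff hψ).pow 2).mul (hG k)))

theorem Zerr_zero (k : Fin 3) (z : X) : Zerr b ψ G k (0, z) = 0 := by
  simp only [Zerr, Dd_zero, Zv, Zq, Zr, g2, gG, pd, Fin.sum_univ_three]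
  have hI : Complex.I ^ 2 = -1 := Complex.I_sq
  have hI4 : Complex.I ^ 4 = 1 := Complex.I_pow_four
  push_cast
  ring_nf
  simp only [hI, hI4]
  ring

theorem err_eq (hψ : ContDiff ℝ ∞ ψ) (hG : ∀ k, ContDiff ℝ ∞ (G k)) {lam : ℝ} (hl : lam ≠ 0)
    (k : Fin 3) (z : X) :
    - ∑ j, pd (b j) (pd (b j) (vv b ψ G lam k)) z + pd (b k) (qq b ψ G lam) z
      - (g2 b ψ z) ^ 2 * G k z * Real.cos (lam * ψ z) = osc ψ (Zerr b ψ G k) lam z := by
  have hn : (∞ : WithTop ℕ∞) ≠ 0 := by norm_num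
  unfold Zerr
  rw [osc_sub, osc_add, osc_neg, osc_sum]
  congr 1
  · congr 1
    · congr 1
      apply Finset.sum_congr rfl
      intro j _
      rw [vv_eq hψ hG hl]
      rw [pd_const_mul ((osc_contDiff hψ (Zv_contDiff hψ hG k) lam).differentiable hn)]
      rw [pd_const_mul ((pd_contDiff (osc_contDiff hψ (Zv_contDiff hψ hG k) lam)).differentiable hn)]
      rw [pd2_osc hψ (Zv_contDiff hψ hG k) hl]
      field_simp
    · rw [qq_eq]
      rw [pd_const_mul ((osc_contDiff hψ (Zq_contDiff hψ hG) lam).differentiable hn)]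
      rw [pd_osc (hψ.differentiable hn) ((Zq_contDiff hψ hG).differentiable hn) hl]
      field_simp
  · exact (osc_ofReal ψ (fun z => (g2 b ψ z) ^ 2 * G k z) lam z).symm

theorem vv_support {F : Set X} (hF : IsClosed F)
    (h : ∀ k, ∀ z ∉ F, G k z = 0) (lam : ℝ) (k : Fin 3) : ∀ z ∉ F, vv b ψ G lam k z = 0 := by
  intro z hz
  have hU : IsOpen Fᶜ := hF.isOpen_compl
  have h1 : ∀ j, ∀ z ∈ Fᶜ, WW ψ (G j) lam z = 0 := by
    intro j z hz
    simp [WW, h j z hz]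
  unfold vv
  rw [Finset.sum_eq_zero, mul_zero]
  intro j _
  rw [pd_eq_zero_of_open hU (pd_eq_zero_of_open hU (h1 j)) z hz,
    pd_eq_zero_of_open hU (pd_eq_zero_of_open hU (h1 k)) z hz, sub_zero]

theorem qq_support {F : Set X} (h : ∀ k, ∀ z ∉ F, G k z = 0) (lam : ℝ) :
    ∀ z ∉ F, qq b ψ G lam z = 0 := by
  intro z hz
  unfold qq gG
  rw [Finset.sum_eq_zero]
  · ring
  · intro j _
    rw [h j z hz, mul_zero]

theorem bounds (hψ : ContDiff ℝ ∞ ψ) (hG : ∀ k, ContDiff ℝ ∞ (G k)) {K : Set X}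
    (hK : IsCompact K) (k : Fin 3) : ∃ C : ℝ, 0 ≤ C ∧ ∀ lam : ℝ, 1 ≤ lam → ∀ z ∈ K,
      |vv b ψ G lam k z| ≤ C / lam ^ 2 ∧ ‖fderiv ℝ (vv b ψ G lam k) z‖ ≤ C / lam ∧
      |qq b ψ G lam z| ≤ C / lam ∧
      |- ∑ j, pd (b j) (pd (b j) (vv b ψ G lam k)) z + pd (b k) (qq b ψ G lam) z
      - (g2 b ψ z) ^ 2 * G k z * Real.cos (lam * ψ z)| ≤ C / lam := by
  have hn : (∞ : WithTop ℕ∞) ≠ 0 := by norm_num
  have hZ := Zv_contDiff (b := b) hψ hG k
  obtain ⟨C1, hC1, h1⟩ := exists_bound hK hZ.continuous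
  obtain ⟨C2, hC2, h2⟩ := exists_bound_of_zero hK (Zerr_contDiff (b := b) hψ hG k)
    (Zerr_zero k)
  obtain ⟨C3, hC3, h3⟩ := exists_bound hK (Zq_contDiff (b := b) hψ hG).continuous
  obtain ⟨C4, h4⟩ := hK.exists_bound_of_continuousOn
    (hψ.continuous_fderiv hn).continuousOn
  obtain ⟨C5, h5⟩ := ((isCompact_Icc (a := (0 : ℝ)) (b := 1)).prod hK).exists_bound_of_continuousOn
    (hZ.continuous_fderiv hn).continuousOn
  refine ⟨C1 + C2 + C3 + (|C5| + |C4| * C1), by positivity, fun lam hl z hz => ?_⟩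
  have hl0 : 0 < lam := lt_of_lt_of_le one_pos hl
  have hmem : lam⁻¹ ∈ Icc (0 : ℝ) 1 := ⟨by positivity, inv_le_one_of_one_le₀ hl⟩
  refine ⟨?_, ?_, ?_, ?_⟩
  · rw [vv_eq hψ hG hl0.ne']
    rw [abs_mul, abs_of_nonneg (by positivity : (0:ℝ) ≤ (lam⁻¹) ^ 2)]
    have := (osc_norm_le ψ (Zv b ψ G k) lam z).trans (h1 _ hmem z hz)
    calc (lam⁻¹) ^ 2 * |osc ψ (Zv b ψ G k) lam z| ≤ (lam⁻¹) ^ 2 * C1 := by gcongr
      _ ≤ (lam⁻¹) ^ 2 * (C1 + C2 + C3 + (|C5| + |C4| * C1)) := by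
          gcongr
          have : 0 ≤ |C5| + |C4| * C1 := by positivity
          linarith
      _ = _ := by field_simp
  · rw [vv_eq hψ hG hl0.ne']
    have hd : fderiv ℝ (fun z => (lam⁻¹) ^ 2 * osc ψ (Zv b ψ G k) lam z) z
        = (lam⁻¹) ^ 2 • fderiv ℝ (osc ψ (Zv b ψ G k) lam) z := by
      have := (((osc_contDiff hψ hZ lam).differentiable hn) z).hasFDerivAt.const_mul ((lam⁻¹) ^ 2)
      exact this.fderiv
    rw [hd, norm_smul, Real.norm_of_nonneg (by positivity)]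
    have h6 := norm_fderiv_osc_le (hψ.differentiable hn) (hZ.differentiable hn) hl z
    have h7 : ‖fderiv ℝ (Zv b ψ G k) (lam⁻¹, z)‖ ≤ |C5| :=
      (h5 (lam⁻¹, z) ⟨hmem, hz⟩).trans (le_abs_self _)
    have h8 : ‖fderiv ℝ ψ z‖ ≤ |C4| := (h4 z hz).trans (le_abs_self _)
    have h9 := h1 _ hmem z hz
    calc (lam⁻¹) ^ 2 * ‖fderiv ℝ (osc ψ (Zv b ψ G k) lam) z‖
        ≤ (lam⁻¹) ^ 2 * (lam * (|C5| + |C4| * C1)) := by
          gcongr
          refine h6.trans ?_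
          gcongr
      _ = (|C5| + |C4| * C1) / lam := by field_simp
      _ ≤ _ := by
          apply div_le_div_of_nonneg_right _ hl0.le
          linarith
  · rw [qq_eq, abs_mul, abs_of_nonneg (by positivity : (0:ℝ) ≤ lam⁻¹)]
    have := (osc_norm_le ψ (Zq b ψ G) lam z).trans (h3 _ hmem z hz)
    calc lam⁻¹ * |osc ψ (Zq b ψ G) lam z| ≤ lam⁻¹ * C3 := by gcongr
      _ ≤ lam⁻¹ * (C1 + C2 + C3 + (|C5| + |C4| * C1)) := by
          gcongr
          have : 0 ≤ |C5| + |C4| * C1 := by positivity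
          linarith
      _ = _ := by field_simp
  · rw [err_eq hψ hG hl0.ne']
    have := (osc_norm_le ψ (Zerr b ψ G k) lam z).trans (h2 _ hmem z hz)
    calc _ ≤ C2 * lam⁻¹ := this
      _ ≤ (C1 + C2 + C3 + (|C5| + |C4| * C1)) * lam⁻¹ := by
          gcongr
          have : 0 ≤ |C5| + |C4| * C1 := by positivity
          linarith
      _ = _ := by field_simp


/-! ### the final statement: finitely many phases -/

theorem corrector {ι : Type*} [Fintype ι] (b : Fin 3 → X) (G : ι → Fin 3 → X → ℝ)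
    (ψ : ι → X → ℝ) (hG : ∀ m k, ContDiff ℝ ∞ (G m k)) (hψ : ∀ m, ContDiff ℝ ∞ (ψ m)) :
    ∃ (v : ℝ → Fin 3 → X → ℝ) (q : ℝ → X → ℝ),
      (∀ lam k, ContDiff ℝ ∞ (v lam k)) ∧ (∀ lam, ContDiff ℝ ∞ (q lam)) ∧
      (∀ lam z, ∑ k, pd (b k) (v lam k) z = 0) ∧
      (∀ F : Set X, IsClosed F → (∀ m k, ∀ z ∉ F, G m k z = 0) →
        ∀ lam k, ∀ z ∉ F, v lam k z = 0 ∧ q lam z = 0) ∧
      (∀ K : Set X, IsCompact K → ∃ C : ℝ, 0 ≤ C ∧ ∀ lam : ℝ, 1 ≤ lam → ∀ z ∈ K, ∀ k,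
        |v lam k z| ≤ C / lam ^ 2 ∧ ‖fderiv ℝ (v lam k) z‖ ≤ C / lam ∧ |q lam z| ≤ C / lam ∧
        |- ∑ j, pd (b j) (pd (b j) (v lam k)) z + pd (b k) (q lam) z
          - ∑ m, (∑ j, (pd (b j) (ψ m) z) ^ 2) ^ 2 * G m k z * Real.cos (lam * ψ m z)|
            ≤ C / lam) := by
  have hn : (∞ : WithTop ℕ∞) ≠ 0 := by norm_num
  have hv : ∀ m lam k, ContDiff ℝ ∞ (vv b (ψ m) (G m) lam k) := fun m lam k =>
    vv_contDiff (hψ m) (hG m) lam k
  have hq : ∀ m lam, ContDiff ℝ ∞ (qq b (ψ m) (G m) lam) := fun m lam =>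
    qq_contDiff (hψ m) (hG m) lam
  refine ⟨fun lam k z => ∑ m, vv b (ψ m) (G m) lam k z, fun lam z => ∑ m, qq b (ψ m) (G m) lam z,
    fun lam k => ContDiff.sum fun m _ => hv m lam k,
    fun lam => ContDiff.sum fun m _ => hq m lam, ?_, ?_, ?_⟩
  · intro lam z
    have h1 : ∀ k, pd (b k) (fun z => ∑ m, vv b (ψ m) (G m) lam k z) z
        = ∑ m, pd (b k) (vv b (ψ m) (G m) lam k) z := by
      intro k
      rw [pd_sum _ (fun m => (hv m lam k).differentiable hn)]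
    simp only [h1]
    rw [Finset.sum_comm]
    exact Finset.sum_eq_zero fun m _ => div_vv (hψ m) (hG m) lam z
  · intro F hF h lam k z hz
    exact ⟨Finset.sum_eq_zero fun m _ => vv_support hF (h m) lam k z hz,
      Finset.sum_eq_zero fun m _ => qq_support (h m) lam z hz⟩
  · intro K hK
    choose C hC0 hC using fun (m : ι) (k : Fin 3) =>
      bounds (b := b) (hψ m) (hG m) hK k
    have hCle : ∀ k, ∑ m, C m k ≤ ∑ k, ∑ m, C m k := fun k =>
      Finset.single_le_sum (f := fun k => ∑ m, C m k)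
        (fun k _ => Finset.sum_nonneg fun m _ => hC0 m k) (Finset.mem_univ k)
    refine ⟨∑ k, ∑ m, C m k,
      Finset.sum_nonneg fun k _ => Finset.sum_nonneg fun m _ => hC0 m k,
      fun lam hl z hz k => ?_⟩
    have hl0 : 0 < lam := lt_of_lt_of_le one_pos hl
    refine ⟨?_, ?_, ?_, ?_⟩
    · calc |∑ m, vv b (ψ m) (G m) lam k z| ≤ ∑ m, |vv b (ψ m) (G m) lam k z| :=
            Finset.abs_sum_le_sum_abs _ _
        _ ≤ ∑ m, C m k / lam ^ 2 := Finset.sum_le_sum fun m _ => (hC m k lam hl z hz).1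
        _ = (∑ m, C m k) / lam ^ 2 := by rw [Finset.sum_div]
        _ ≤ _ := by
          apply div_le_div_of_nonneg_right (hCle k) (by positivity)
    · have h1 : fderiv ℝ (fun z => ∑ m, vv b (ψ m) (G m) lam k z) z
          = ∑ m, fderiv ℝ (vv b (ψ m) (G m) lam k) z := by
        have : HasFDerivAt (fun z => ∑ m, vv b (ψ m) (G m) lam k z)
            (∑ m, fderiv ℝ (vv b (ψ m) (G m) lam k) z) z :=
          HasFDerivAt.fun_sum fun m _ => (((hv m lam k).differentiable hn) z).hasFDerivAt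
        exact this.fderiv
      rw [h1]
      calc ‖∑ m, fderiv ℝ (vv b (ψ m) (G m) lam k) z‖
          ≤ ∑ m, ‖fderiv ℝ (vv b (ψ m) (G m) lam k) z‖ := norm_sum_le _ _
        _ ≤ ∑ m, C m k / lam := Finset.sum_le_sum fun m _ => (hC m k lam hl z hz).2.1
        _ = (∑ m, C m k) / lam := by rw [Finset.sum_div]
        _ ≤ _ := by
          apply div_le_div_of_nonneg_right (hCle k) hl0.le
    · calc |∑ m, qq b (ψ m) (G m) lam z| ≤ ∑ m, |qq b (ψ m) (G m) lam z| :=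
            Finset.abs_sum_le_sum_abs _ _
        _ ≤ ∑ m, C m k / lam := Finset.sum_le_sum fun m _ => (hC m k lam hl z hz).2.2.1
        _ = (∑ m, C m k) / lam := by rw [Finset.sum_div]
        _ ≤ _ := by
          apply div_le_div_of_nonneg_right (hCle k) hl0.le
    · have h2 : ∀ j, pd (b j) (pd (b j) (fun z => ∑ m, vv b (ψ m) (G m) lam k z)) z
          = ∑ m, pd (b j) (pd (b j) (vv b (ψ m) (G m) lam k)) z := by
        intro j
        rw [pd_sum _ (fun m => (hv m lam k).differentiable hn)]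
        rw [pd_sum _ (fun m => (pd_contDiff (hv m lam k)).differentiable hn)]
      have h3 : pd (b k) (fun z => ∑ m, qq b (ψ m) (G m) lam z) z
          = ∑ m, pd (b k) (qq b (ψ m) (G m) lam) z := by
        rw [pd_sum _ (fun m => (hq m lam).differentiable hn)]
      have h4 : - ∑ j, pd (b j) (pd (b j) (fun z => ∑ m, vv b (ψ m) (G m) lam k z)) z
          + pd (b k) (fun z => ∑ m, qq b (ψ m) (G m) lam z) z
          - ∑ m, (∑ j, (pd (b j) (ψ m) z) ^ 2) ^ 2 * G m k z * Real.cos (lam * ψ m z)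
          = ∑ m, (- ∑ j, pd (b j) (pd (b j) (vv b (ψ m) (G m) lam k)) z
            + pd (b k) (qq b (ψ m) (G m) lam) z
            - (g2 b (ψ m) z) ^ 2 * G m k z * Real.cos (lam * ψ m z)) := by
        simp only [h2, h3, Finset.sum_sub_distrib, Finset.sum_add_distrib,
          Finset.sum_neg_distrib, g2]
        rw [Finset.sum_comm]
      rw [h4]
      calc _ ≤ ∑ m, |- ∑ j, pd (b j) (pd (b j) (vv b (ψ m) (G m) lam k)) z
            + pd (b k) (qq b (ψ m) (G m) lam) z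
            - (g2 b (ψ m) z) ^ 2 * G m k z * Real.cos (lam * ψ m z)| :=
            Finset.abs_sum_le_sum_abs _ _
        _ ≤ ∑ m, C m k / lam := Finset.sum_le_sum fun m _ => (hC m k lam hl z hz).2.2.2
        _ = (∑ m, C m k) / lam := by rw [Finset.sum_div]
        _ ≤ _ := by
          apply div_le_div_of_nonneg_right (hCle k) hl0.le

end H51.Osc
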