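import Pool.Agent.H92.MHD_Region
import Pool.Agent.H19.MHD_Phases
import Pool.Agent.H63.MHD.Paths
import Pool.Agent.H51.MHD.Osc

/-! # M6 : existence of step data -/

open MeasureTheory Set Filter Topology
open scoped ContDiff
open H36.MHD

noncomputable section

namespace H37.MHD

variable {B : Bg}

namespace M6

theorem inf_ne : (∞ : WithTop ℕ∞) ≠ 0 := by norm_num

/-! ### smoothness -/

theorem fderiv_apply_contDiff {g : X → ℝ} (hg : ContDiff ℝ ∞ g) (e : X) :
    ContDiff ℝ ∞ (fun z => fderiv ℝ g z e) :=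
  (hg.fderiv_right (m := ∞) (by norm_cast)).clm_apply contDiff_const

theorem dx_contDiff {g : X → ℝ} (hg : ContDiff ℝ ∞ g) (j : Fin 3) : ContDiff ℝ ∞ (dx j g) :=
  fderiv_apply_contDiff hg _

theorem dt_contDiff {g : X → ℝ} (hg : ContDiff ℝ ∞ g) : ContDiff ℝ ∞ (dt g) :=
  fderiv_apply_contDiff hg _

theorem vec_contDiff {U : Fin 3 → X → ℝ} (hU : ∀ k, ContDiff ℝ ∞ (U k)) :
    ContDiff ℝ ∞ (vec U) := contDiff_pi.2 hU

theorem lap_contDiff {g : X → ℝ} (hg : ContDiff ℝ ∞ g) : ContDiff ℝ ∞ (lap g) := by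
  unfold lap
  exact ContDiff.sum fun j _ => dx_contDiff (dx_contDiff hg j) j

theorem acc_contDiff {u f : Fin 3 → X → ℝ} (hu : ∀ k, ContDiff ℝ ∞ (u k))
    (hf : ∀ k, ContDiff ℝ ∞ (f k)) (k : Fin 3) : ContDiff ℝ ∞ (acc u f k) := by
  unfold acc
  exact ((dt_contDiff (hu k)).add (ContDiff.sum fun j _ => (hu j).mul (dx_contDiff (hu k) j))).sub
    (hf k)

theorem dens_contDiff (st : Stage B) (i : Fin 2) : ContDiff ℝ ∞ (st.dens i) :=
  st.rho_smooth.comp (vec_contDiff (st.Y_smooth i))

theorem E_contDiff (st : Stage B) (i : Fin 2) (k : Fin 3) : ContDiff ℝ ∞ (st.E i k) := by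
  unfold Stage.E
  exact (((dens_contDiff st i).mul (acc_contDiff (st.u_smooth i) st.f_smooth k)).sub
    (lap_contDiff (st.u_smooth i k))).add (dx_contDiff (st.p_smooth i) k)

/-- quotient of a smooth function vanishing outside the closed set `F` by a smooth function
positive on an open set containing `F`. -/
theorem div_contDiff {F U : Set X} (hF : IsClosed F) (hFU : F ⊆ U)
    {c D : X → ℝ} (hc : ContDiff ℝ ∞ c) (hD : ContDiff ℝ ∞ D) (hc0 : ∀ z ∉ F, c z = 0)
    (hDU : ∀ z ∈ U, D z ≠ 0) : ContDiff ℝ ∞ (fun z => c z / D z) := by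
  rw [contDiff_iff_contDiffAt]
  intro z
  by_cases hz : z ∈ F
  · exact hc.contDiffAt.div hD.contDiffAt (hDU z (hFU hz))
  · have h : (fun z => c z / D z) =ᶠ[𝓝 z] fun _ => 0 := by
      filter_upwards [hF.isOpen_compl.mem_nhds hz] with w hw
      rw [hc0 w hw, zero_div]
    exact contDiffAt_const.congr_of_eventuallyEq h

/-! ### representable families -/

/-- square of the norm of the spatial gradient -/
def G2 (ψ : X → ℝ) (z : X) : ℝ := ∑ j, (dx j ψ z) ^ 2

theorem G2_contDiff {ψ : X → ℝ} (hψ : ContDiff ℝ ∞ ψ) : ContDiff ℝ ∞ (G2 ψ) := by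
  unfold G2
  exact ContDiff.sum fun j _ => (dx_contDiff hψ j).pow 2

/-- families which are sums of `|∇ψ|^4 G cos (λ ψ)` with `G` supported in `F` -/
def Rep (F : Set X) (R : ℝ → Fin 3 → X → ℝ) : Prop :=
  ∃ (ι : Type) (_ : Fintype ι) (G : ι → Fin 3 → X → ℝ) (ψ : ι → X → ℝ),
    (∀ m k, ContDiff ℝ ∞ (G m k)) ∧ (∀ m, ContDiff ℝ ∞ (ψ m)) ∧
    (∀ m k, ∀ z ∉ F, G m k z = 0) ∧
    ∀ lam k z, R lam k z = ∑ m, (G2 (ψ m) z) ^ 2 * G m k z * Real.cos (lam * ψ m z)

theorem Rep.zero (F : Set X) : Rep F (fun _ _ _ => 0) :=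
  ⟨Empty, inferInstance, fun m => m.elim, fun m => m.elim, fun m => m.elim, fun m => m.elim,
    fun m => m.elim, fun lam k z => by simp⟩

theorem Rep.add {F : Set X} {R₁ R₂ : ℝ → Fin 3 → X → ℝ} (h₁ : Rep F R₁) (h₂ : Rep F R₂) :
    Rep F (fun lam k z => R₁ lam k z + R₂ lam k z) := by
  obtain ⟨ι₁, _, G₁, ψ₁, a₁, b₁, c₁, d₁⟩ := h₁
  obtain ⟨ι₂, _, G₂, ψ₂, a₂, b₂, c₂, d₂⟩ := h₂
  refine ⟨ι₁ ⊕ ι₂, inferInstance, Sum.elim G₁ G₂, Sum.elim ψ₁ ψ₂, ?_, ?_, ?_, ?_⟩
  · rintro (m | m) k
    · exact a₁ m k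
    · exact a₂ m k
  · rintro (m | m)
    · exact b₁ m
    · exact b₂ m
  · rintro (m | m) k
    · exact c₁ m k
    · exact c₂ m k
  · intro lam k z
    rw [Fintype.sum_sum_type]
    dsimp only
    rw [d₁, d₂]
    rfl

theorem Rep.sum {F : Set X} {κ : Type} (s : Finset κ) {R : κ → ℝ → Fin 3 → X → ℝ}
    (h : ∀ i ∈ s, Rep F (R i)) : Rep F (fun lam k z => ∑ i ∈ s, R i lam k z) := by
  classical
  induction s using Finset.induction_on with
  | empty => simpa using Rep.zero F
  | insert a s ha ih =>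
    have h1 := (h a (Finset.mem_insert_self a s)).add
      (ih fun i hi => h i (Finset.mem_insert_of_mem hi))
    have h2 : (fun lam k z => ∑ i ∈ insert a s, R i lam k z)
        = fun lam k z => R a lam k z + ∑ i ∈ s, R i lam k z := by
      funext lam k z
      rw [Finset.sum_insert ha]
    rw [h2]
    exact h1

theorem Rep.deg {F : Set X} {ψ : X → ℝ} (hψ : ContDiff ℝ ∞ ψ) {G : Fin 3 → X → ℝ}
    (hG : ∀ k, ContDiff ℝ ∞ (G k)) (hF : ∀ k, ∀ z ∉ F, G k z = 0) {c : Fin 3 → X → ℝ}
    (hc : ∀ k z, c k z = (G2 ψ z) ^ 2 * G k z) :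
    Rep F (fun lam k z => c k z * Real.cos (lam * ψ z)) :=
  ⟨Unit, inferInstance, fun _ => G, fun _ => ψ, fun _ => hG, fun _ => hψ, fun _ => hF,
    fun lam k z => by simp [hc]⟩

theorem Rep.nondeg {F U : Set X} (hFc : IsClosed F) (hFU : F ⊆ U) {ψ : X → ℝ}
    (hψ : ContDiff ℝ ∞ ψ) (hpos : ∀ z ∈ U, G2 ψ z ≠ 0) {c : Fin 3 → X → ℝ}
    (hcs : ∀ k, ContDiff ℝ ∞ (c k)) (hc : ∀ k, ∀ z ∉ F, c k z = 0) :
    Rep F (fun lam k z => c k z * Real.cos (lam * ψ z)) := by
  refine Rep.deg (G := fun k z => c k z / (G2 ψ z) ^ 2) hψ (fun k => ?_) ?_ ?_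
  · exact div_contDiff hFc hFU (hcs k) ((G2_contDiff hψ).pow 2) (hc k)
      (fun z hz => pow_ne_zero 2 (hpos z hz))
  · intro k z hz
    simp [hc k z hz]
  · intro k z
    by_cases hz : z ∈ F
    · have := hpos z (hFU hz)
      field_simp
    · simp [hc k z hz]

theorem g2_pos_of_dx {ψ : X → ℝ} {z : X} (k : Fin 3) (h : dx k ψ z ≠ 0) : G2 ψ z ≠ 0 := by
  unfold G2
  have h1 : (dx k ψ z) ^ 2 ≤ ∑ j, (dx j ψ z) ^ 2 :=
    Finset.single_le_sum (f := fun j => (dx j ψ z) ^ 2) (fun j _ => sq_nonneg _)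
      (Finset.mem_univ k)
  have h2 : 0 < (dx k ψ z) ^ 2 := by positivity
  exact (lt_of_lt_of_le h2 h1).ne'

/-! ### the regions -/

def FF0 (B : Bg) (sp : ℝ) : Set X := {z : X | sp ^ 2 ≤ SS B z ∧ |z.1| ≤ 5 / 4 * B.T}

def UU0 (B : Bg) : Set X := {z : X | 0 < SS B z ∧ |z.1| ≤ 3 / 2 * B.T}

theorem FF0_sub (B : Bg) {sp : ℝ} (hs : 0 < sp) : FF0 B sp ⊆ UU0 B := by
  intro z hz
  refine ⟨lt_of_lt_of_le (by positivity) hz.1, hz.2.trans ?_⟩
  have := B.hT
  nlinarith

theorem not_FF0 {sp : ℝ} {z : X} (h : SS B z < sp ^ 2 ∨ 5 / 4 * B.T < |z.1|) : z ∉ FF0 B sp := by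
  rintro ⟨h1, h2⟩
  rcases h with h | h
  · exact absurd h1 (not_le.2 h)
  · exact absurd h2 (not_le.2 h)

/-! ### gradients of the phases -/

theorem h_grad_low (st : Stage B) (i : Fin 2) (a : Fin 4) (z : X)
    (hz : |z.1| ≤ 3 / 2 * B.T) (hx : ‖z.2 - B.x0‖ ≤ 1) : 1 / 2 ≤ dx (kp a) (st.h i a) z :=
  h_grad_low_aux st i a z hx (st.Y_near i z.1 z.2 hz) (fun v => st.DY i z hz v)

theorem h_grad_up (st : Stage B) (i : Fin 2) (a : Fin 4) (k : Fin 3) (z : X)
    (hz : |z.1| ≤ 3 / 2 * B.T) (hx : ‖z.2 - B.x0‖ ≤ 1) : |dx k (st.h i a) z| ≤ 8 :=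
  h_grad_up_aux st i a k z hx (st.Y_near i z.1 z.2 hz) (fun v => st.DY i z hz v)

theorem NN_pos (st : Stage B) (z : X) (hz : |z.1| ≤ 3 / 2 * B.T) (hS : 0 < SS B z) :
    0 < ∑ a, st.NN a z :=
  NN_pos_aux st z (fun v => st.DY 0 z hz v) (st.Y_ne z.1 z.2 hz hS)

theorem mu_pos (a : Fin 4) : 0 < mu a := by
  unfold mu; positivity

theorem mu_lt {a b : Fin 4} (h : a < b) : 100 * mu a ≤ mu b := by
  unfold mu
  have h1 : (a : ℕ) + 1 ≤ (b : ℕ) := h
  calc 100 * (100 : ℝ) ^ (a : ℕ) = 100 ^ ((a : ℕ) + 1) := by ring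
    _ ≤ 100 ^ (b : ℕ) := pow_le_pow_right₀ (by norm_num) h1

theorem dx_comb {f g : X → ℝ} (hf : ContDiff ℝ ∞ f) (hg : ContDiff ℝ ∞ g) (α β : ℝ) (k : Fin 3)
    (z : X) : dx k (fun z => α * f z + β * g z) z = α * dx k f z + β * dx k g z := by
  unfold dx
  have h1 := ((hf.differentiable inf_ne) z).hasFDerivAt.const_mul α
  have h2 := ((hg.differentiable inf_ne) z).hasFDerivAt.const_mul β
  have h3 : HasFDerivAt (fun z => α * f z + β * g z) _ z := h1.add h2
  rw [h3.fderiv]
  simp

theorem dx_single {f : X → ℝ} (hf : ContDiff ℝ ∞ f) (α : ℝ) (k : Fin 3)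
    (z : X) : dx k (fun z => α * f z) z = α * dx k f z := by
  have := dx_comb hf hf α 0 k z
  simpa using this

theorem grad_single (st : Stage B) (i : Fin 2) (a : Fin 4) (z : X) (hz : z ∈ UU0 B) :
    G2 (fun z => mu a * st.h i a z) z ≠ 0 := by
  have hx : ‖z.2 - B.x0‖ ≤ 1 := (mem_ball_of_SS_pos B z hz.1).trans B.hr1
  apply g2_pos_of_dx (kp a)
  rw [dx_single (st.h_smooth i a)]
  have h1 := h_grad_low st i a z hz.2 hx
  have h2 := mu_pos a
  have : 0 < dx (kp a) (st.h i a) z := by linarith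
  positivity

theorem grad_comb (st : Stage B) (i j : Fin 2) (a b : Fin 4) (σ : ℝ) (hσ : |σ| = 1)
    (h : a ≠ b) (z : X) (hz : z ∈ UU0 B) :
    G2 (fun z => mu b * st.h i b z + σ * mu a * st.h j a z) z ≠ 0 := by
  have hx : ‖z.2 - B.x0‖ ≤ 1 := (mem_ball_of_SS_pos B z hz.1).trans B.hr1
  have ha0 := mu_pos a
  have hb0 := mu_pos b
  rcases lt_or_gt_of_ne h with hab | hab
  · apply g2_pos_of_dx (kp b)
    rw [dx_comb (st.h_smooth i b) (st.h_smooth j a)]
    have h1 := h_grad_low st i b z hz.2 hx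
    have h2 := h_grad_up st j a (kp b) z hz.2 hx
    have h3 := mu_lt hab
    have h4 : |σ * mu a * dx (kp b) (st.h j a) z| ≤ mu a * 8 := by
      rw [abs_mul, abs_mul, hσ, one_mul, abs_of_pos ha0]
      gcongr
    have h5 : mu b * (1 / 2) ≤ mu b * dx (kp b) (st.h i b) z := by gcongr
    have h6 := (abs_le.1 h4).1
    apply ne_of_gt
    linarith
  · apply g2_pos_of_dx (kp a)
    rw [dx_comb (st.h_smooth i b) (st.h_smooth j a)]
    have h1 := h_grad_low st j a z hz.2 hx
    have h2 := h_grad_up st i b (kp a) z hz.2 hx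
    have h3 := mu_lt hab
    have h4 : |mu b * dx (kp a) (st.h i b) z| ≤ mu b * 8 := by
      rw [abs_mul, abs_of_pos hb0]
      gcongr
    have h5 : mu a * (1 / 2) ≤ mu a * dx (kp a) (st.h j a) z := by gcongr
    have h7 : |σ * mu a * dx (kp a) (st.h j a) z| = mu a * dx (kp a) (st.h j a) z := by
      rw [abs_mul, abs_mul, hσ, one_mul, abs_of_pos ha0, abs_of_nonneg (by linarith)]
    intro h8
    have h9 : σ * mu a * dx (kp a) (st.h j a) z = - (mu b * dx (kp a) (st.h i b) z) := by
      linarith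
    rw [h9, abs_neg] at h7
    linarith

theorem grad_same (st : Stage B) (i j : Fin 2) (a : Fin 4) (z : X) (hz : z ∈ UU0 B) :
    G2 (fun z => mu a * st.h i a z + 1 * mu a * st.h j a z) z ≠ 0 := by
  have hx : ‖z.2 - B.x0‖ ≤ 1 := (mem_ball_of_SS_pos B z hz.1).trans B.hr1
  apply g2_pos_of_dx (kp a)
  rw [dx_comb (st.h_smooth i a) (st.h_smooth j a)]
  have h1 := h_grad_low st i a z hz.2 hx
  have h2 := h_grad_low st j a z hz.2 hx
  have h3 := mu_pos a
  have h4 : 0 < dx (kp a) (st.h i a) z := by linarith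
  have h5 : 0 < dx (kp a) (st.h j a) z := by linarith
  positivity

theorem grad_plus (st : Stage B) (i j : Fin 2) (a b : Fin 4) (z : X) (hz : z ∈ UU0 B) :
    G2 (fun z => mu b * st.h i b z + 1 * mu a * st.h j a z) z ≠ 0 := by
  by_cases h : a = b
  · subst h
    exact grad_same st i j a z hz
  · exact grad_comb st i j a b 1 (by simp) h z hz

theorem grad_minus (st : Stage B) (i j : Fin 2) (a b : Fin 4) (h : a ≠ b) (z : X)
    (hz : z ∈ UU0 B) :
    G2 (fun z => mu b * st.h i b z + (-1) * mu a * st.h j a z) z ≠ 0 :=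
  grad_comb st i j a b (-1) (by simp) h z hz

theorem grad_deg (st : Stage B) (i j : Fin 2) (h : i ≠ j) (a : Fin 4) (z : X) :
    (G2 (fun z => mu a * st.h i a z + (-1) * mu a * st.h j a z) z) ^ 2
      = mu a ^ 4 * st.NN a z := by
  have h1 : ∀ k, (dx k (fun z => mu a * st.h i a z + (-1) * mu a * st.h j a z) z) ^ 2
      = mu a ^ 2 * (dx k (st.h 0 a) z - dx k (st.h 1 a) z) ^ 2 := by
    intro k
    rw [dx_comb (st.h_smooth i a) (st.h_smooth j a)]
    fin_cases i <;> fin_cases j
    · exact absurd rfl h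
    · simp only [Fin.mk_zero, Fin.mk_one]
      ring
    · simp only [Fin.mk_zero, Fin.mk_one]
      ring
    · exact absurd rfl h
  unfold G2 Stage.NN
  simp only [h1]
  rw [← Finset.mul_sum]
  ring

/-! ### decomposition of the oscillating part -/

/-- amplitude `g N_a E_j` -/
def amp (st : Stage B) (g : X → ℝ) (a : Fin 4) (j : Fin 2) (k : Fin 3) (z : X) : ℝ :=
  g z * st.NN a z * st.E j k z

theorem RR_eq (st : Stage B) {ε : ℝ} (hε : ε ≠ 0) (chi g : X → ℝ)
    (hg : ∀ z, g z * ∑ a, st.NN a z = chi z) (lam : ℝ) (i : Fin 2) (k : Fin 3) (z : X) :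
    st.RR ε chi g lam i k z =
      (∑ a, ∑ j, (2 / ε * st.dens i z * amp st g a j k z)
          * Real.cos (lam * (mu a * st.h j a z)))
      + (∑ b, ∑ a, ∑ j, amp st g a j k z
          * Real.cos (lam * (mu b * st.h i b z + 1 * mu a * st.h j a z)))
      + (∑ b, ∑ a, ∑ j, (if a = b ∧ i = j then 0 else amp st g a j k z
          * Real.cos (lam * (mu b * st.h i b z + (-1) * mu a * st.h j a z))))
      + ∑ b, (-(ε * chi z * acc (st.u i) st.f k z)) * Real.cos (lam * (mu b * st.h i b z)) := by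
  have h1 : st.CC lam i z * (∑ a, ∑ j, amp st g a j k z
      * Real.cos (lam * (mu a * st.h j a z))) * 2
      = (∑ b, ∑ a, ∑ j, amp st g a j k z
          * Real.cos (lam * (mu b * st.h i b z + 1 * mu a * st.h j a z)))
        + ∑ b, ∑ a, ∑ j, amp st g a j k z
          * Real.cos (lam * (mu b * st.h i b z + (-1) * mu a * st.h j a z)) := by
    unfold Stage.CC
    rw [Finset.sum_mul, Finset.sum_mul, ← Finset.sum_add_distrib]
    apply Finset.sum_congr rfl
    intro b _
    rw [Finset.mul_sum, Finset.sum_mul, ← Finset.sum_add_distrib]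
    apply Finset.sum_congr rfl
    intro a _
    rw [Finset.mul_sum, Finset.sum_mul, ← Finset.sum_add_distrib]
    apply Finset.sum_congr rfl
    intro j _
    have e1 : lam * (mu b * st.h i b z + 1 * mu a * st.h j a z)
        = lam * (mu b * st.h i b z) + lam * (mu a * st.h j a z) := by ring
    have e2 : lam * (mu b * st.h i b z + (-1) * mu a * st.h j a z)
        = lam * (mu b * st.h i b z) - lam * (mu a * st.h j a z) := by ring
    rw [e1, e2, Real.cos_add, Real.cos_sub]
    ring
  have h2 : (∑ b, ∑ a, ∑ j, amp st g a j k z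
          * Real.cos (lam * (mu b * st.h i b z + (-1) * mu a * st.h j a z)))
      = (∑ b, ∑ a, ∑ j, (if a = b ∧ i = j then 0 else amp st g a j k z
          * Real.cos (lam * (mu b * st.h i b z + (-1) * mu a * st.h j a z))))
        + chi z * st.E i k z := by
    have h3 : ∀ b a j, amp st g a j k z
          * Real.cos (lam * (mu b * st.h i b z + (-1) * mu a * st.h j a z))
        = (if a = b ∧ i = j then 0 else amp st g a j k z
          * Real.cos (lam * (mu b * st.h i b z + (-1) * mu a * st.h j a z)))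
          + (if a = b ∧ i = j then amp st g b i k z else 0) := by
      intro b a j
      split_ifs with h
      · obtain ⟨rfl, rfl⟩ := h
        have : lam * (mu a * st.h i a z + (-1) * mu a * st.h i a z) = 0 := by ring
        rw [this, Real.cos_zero]
        ring
      · ring
    rw [Finset.sum_congr rfl fun b _ => Finset.sum_congr rfl fun a _ =>
      Finset.sum_congr rfl fun j _ => h3 b a j]
    simp only [Finset.sum_add_distrib]
    congr 1
    have h4 : ∀ b : Fin 4, (∑ a : Fin 4, ∑ j : Fin 2,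
        (if a = b ∧ i = j then amp st g b i k z else 0)) = amp st g b i k z := by
      intro b
      rw [Finset.sum_eq_single b]
      · rw [Finset.sum_eq_single i]
        · simp
        · intro j _ hj
          rw [if_neg]
          rintro ⟨_, h⟩
          exact hj h.symm
        · intro h; exact absurd (Finset.mem_univ _) h
      · intro a _ ha
        apply Finset.sum_eq_zero
        intro j _
        rw [if_neg]
        rintro ⟨h, _⟩
        exact ha h
      · intro h; exact absurd (Finset.mem_univ _) h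
    simp only [h4]
    unfold amp
    rw [← Finset.sum_mul, ← Finset.mul_sum, hg]
  have h5 : (st.dens i z + ε * st.CC lam i z) * st.FF ε g lam k z
      = (∑ a, ∑ j, (2 / ε * st.dens i z * amp st g a j k z)
          * Real.cos (lam * (mu a * st.h j a z)))
        + st.CC lam i z * (∑ a, ∑ j, amp st g a j k z
          * Real.cos (lam * (mu a * st.h j a z))) * 2 := by
    have h6 : st.FF ε g lam k z = 2 / ε * ∑ a, ∑ j, amp st g a j k z
          * Real.cos (lam * (mu a * st.h j a z)) := rfl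
    have h7 : (∑ a, ∑ j, (2 / ε * st.dens i z * amp st g a j k z)
          * Real.cos (lam * (mu a * st.h j a z)))
        = 2 / ε * st.dens i z * ∑ a, ∑ j, amp st g a j k z
          * Real.cos (lam * (mu a * st.h j a z)) := by
      rw [Finset.mul_sum]
      apply Finset.sum_congr rfl
      intro a _
      rw [Finset.mul_sum]
      apply Finset.sum_congr rfl
      intro j _
      ring
    rw [h6, h7]
    field_simp
  have h8 : (∑ b, (-(ε * chi z * acc (st.u i) st.f k z)) * Real.cos (lam * (mu b * st.h i b z)))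
      = -(ε * chi z * acc (st.u i) st.f k z) * st.CC lam i z := by
    unfold Stage.CC
    rw [Finset.mul_sum]
  rw [h8]
  unfold Stage.RR
  rw [h5, h1, h2]
  ring

theorem comb_contDiff (st : Stage B) (i j : Fin 2) (a b : Fin 4) (σ : ℝ) :
    ContDiff ℝ ∞ (fun z => mu b * st.h i b z + σ * mu a * st.h j a z) :=
  (contDiff_const.mul (st.h_smooth i b)).add (contDiff_const.mul (st.h_smooth j a))

theorem single_contDiff (st : Stage B) (j : Fin 2) (a : Fin 4) :
    ContDiff ℝ ∞ (fun z => mu a * st.h j a z) :=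
  contDiff_const.mul (st.h_smooth j a)

theorem amp_contDiff (st : Stage B) {g : X → ℝ} (hg : ContDiff ℝ ∞ g) (a : Fin 4) (j : Fin 2)
    (k : Fin 3) : ContDiff ℝ ∞ (amp st g a j k) :=
  (hg.mul (st.NN_smooth a)).mul (E_contDiff st j k)

theorem RR_rep (st : Stage B) {ε : ℝ} (hε : ε ≠ 0) {sp : ℝ} (hs : 0 < sp) {chi g : X → ℝ}
    (hchi : ContDiff ℝ ∞ chi) (hgs : ContDiff ℝ ∞ g)
    (hchi0 : ∀ z ∉ FF0 B sp, chi z = 0) (hg0 : ∀ z ∉ FF0 B sp, g z = 0)
    (hg : ∀ z, g z * ∑ a, st.NN a z = chi z) (i : Fin 2) :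
    Rep (FF0 B sp) (fun lam k z => st.RR ε chi g lam i k z) := by
  have hFc : IsClosed (FF0 B sp) := (isCompact_region B sp hs).isClosed
  have hFU := FF0_sub B hs
  have h0 : ∀ a j k, ∀ z ∉ FF0 B sp, amp st g a j k z = 0 := by
    intro a j k z hz
    simp [amp, hg0 z hz]
  have h1 : Rep (FF0 B sp) (fun lam k z => ∑ a, ∑ j, (2 / ε * st.dens i z * amp st g a j k z)
          * Real.cos (lam * (mu a * st.h j a z))) := by
    apply Rep.sum (Finset.univ : Finset (Fin 4))
      (R := fun a lam k z => ∑ j, (2 / ε * st.dens i z * amp st g a j k z)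
          * Real.cos (lam * (mu a * st.h j a z)))
    intro a _
    apply Rep.sum (Finset.univ : Finset (Fin 2))
      (R := fun j lam k z => (2 / ε * st.dens i z * amp st g a j k z)
          * Real.cos (lam * (mu a * st.h j a z)))
    intro j _
    apply Rep.nondeg hFc hFU (single_contDiff st j a) (grad_single st j a)
      (c := fun k z => 2 / ε * st.dens i z * amp st g a j k z)
    · intro k
      exact (contDiff_const.mul (dens_contDiff st i)).mul (amp_contDiff st hgs a j k)
    · intro k z hz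
      simp only [h0 a j k z hz, mul_zero]
  have h2 : Rep (FF0 B sp) (fun lam k z => ∑ b, ∑ a, ∑ j, amp st g a j k z
          * Real.cos (lam * (mu b * st.h i b z + 1 * mu a * st.h j a z))) := by
    apply Rep.sum (Finset.univ : Finset (Fin 4))
      (R := fun b lam k z => ∑ a, ∑ j, amp st g a j k z
          * Real.cos (lam * (mu b * st.h i b z + 1 * mu a * st.h j a z)))
    intro b _
    apply Rep.sum (Finset.univ : Finset (Fin 4))
      (R := fun a lam k z => ∑ j, amp st g a j k z
          * Real.cos (lam * (mu b * st.h i b z + 1 * mu a * st.h j a z)))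
    intro a _
    apply Rep.sum (Finset.univ : Finset (Fin 2))
      (R := fun j lam k z => amp st g a j k z
          * Real.cos (lam * (mu b * st.h i b z + 1 * mu a * st.h j a z)))
    intro j _
    exact Rep.nondeg hFc hFU (comb_contDiff st i j a b 1) (grad_plus st i j a b)
      (c := fun k z => amp st g a j k z) (fun k => amp_contDiff st hgs a j k)
      (fun k z hz => h0 a j k z hz)
  have h3 : Rep (FF0 B sp) (fun lam k z => ∑ b, ∑ a, ∑ j,
      (if a = b ∧ i = j then 0 else amp st g a j k z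
          * Real.cos (lam * (mu b * st.h i b z + (-1) * mu a * st.h j a z)))) := by
    apply Rep.sum (Finset.univ : Finset (Fin 4))
      (R := fun b lam k z => ∑ a, ∑ j, (if a = b ∧ i = j then 0 else amp st g a j k z
          * Real.cos (lam * (mu b * st.h i b z + (-1) * mu a * st.h j a z))))
    intro b _
    apply Rep.sum (Finset.univ : Finset (Fin 4))
      (R := fun a lam k z => ∑ j, (if a = b ∧ i = j then 0 else amp st g a j k z
          * Real.cos (lam * (mu b * st.h i b z + (-1) * mu a * st.h j a z))))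
    intro a _
    apply Rep.sum (Finset.univ : Finset (Fin 2))
      (R := fun j lam k z => (if a = b ∧ i = j then 0 else amp st g a j k z
          * Real.cos (lam * (mu b * st.h i b z + (-1) * mu a * st.h j a z))))
    intro j _
    by_cases hab : a = b
    · subst hab
      by_cases hij : i = j
      · simpa [hij] using Rep.zero (FF0 B sp)
      · have h4 : (fun (lam : ℝ) (k : Fin 3) (z : X) => (if a = a ∧ i = j then 0 else amp st g a j k z
            * Real.cos (lam * (mu a * st.h i a z + (-1) * mu a * st.h j a z))))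
            = fun lam k z => amp st g a j k z
            * Real.cos (lam * (mu a * st.h i a z + (-1) * mu a * st.h j a z)) := by
          funext lam k z
          rw [if_neg]
          rintro ⟨_, h⟩
          exact hij h
        rw [h4]
        have hmu : mu a ^ 4 ≠ 0 := pow_ne_zero 4 (mu_pos a).ne'
        refine Rep.deg (c := fun k z => amp st g a j k z) (comb_contDiff st i j a a (-1))
          (G := fun k z => g z * st.E j k z / mu a ^ 4) ?_ ?_ ?_
        · intro k
          exact (hgs.mul (E_contDiff st j k)).div_const _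
        · intro k z hz
          simp [hg0 z hz]
        · intro k z
          rw [grad_deg st i j hij a z]
          unfold amp
          generalize mu a ^ 4 = m at hmu
          field_simp
    · have h4 : (fun (lam : ℝ) (k : Fin 3) (z : X) => (if a = b ∧ i = j then 0 else amp st g a j k z
            * Real.cos (lam * (mu b * st.h i b z + (-1) * mu a * st.h j a z))))
            = fun lam k z => amp st g a j k z
            * Real.cos (lam * (mu b * st.h i b z + (-1) * mu a * st.h j a z)) := by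
        funext lam k z
        rw [if_neg]
        rintro ⟨h, _⟩
        exact hab h
      rw [h4]
      exact Rep.nondeg hFc hFU (comb_contDiff st i j a b (-1)) (grad_minus st i j a b hab)
        (c := fun k z => amp st g a j k z) (fun k => amp_contDiff st hgs a j k)
        (fun k z hz => h0 a j k z hz)
  have h4 : Rep (FF0 B sp) (fun lam k z => ∑ b, (-(ε * chi z * acc (st.u i) st.f k z))
      * Real.cos (lam * (mu b * st.h i b z))) := by
    apply Rep.sum (Finset.univ : Finset (Fin 4))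
      (R := fun b lam k z => (-(ε * chi z * acc (st.u i) st.f k z))
      * Real.cos (lam * (mu b * st.h i b z)))
    intro b _
    apply Rep.nondeg hFc hFU (single_contDiff st i b) (grad_single st i b)
      (c := fun k z => -(ε * chi z * acc (st.u i) st.f k z))
    · intro k
      exact ((contDiff_const.mul hchi).mul (acc_contDiff (st.u_smooth i) st.f_smooth k)).neg
    · intro k z hz
      simp only [hchi0 z hz, mul_zero, zero_mul, neg_zero]
  have h5 := ((h1.add h2).add h3).add h4
  exact (congrArg (Rep (FF0 B sp)) (funext fun lam => funext fun k => funext fun z =>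
    RR_eq st hε chi g hg lam i k z)).mpr h5

/-- every representable family can be corrected -/
theorem Rep.correct {F : Set X} (hF : IsCompact F) {R : ℝ → Fin 3 → X → ℝ} (h : Rep F R) :
    ∃ (v : ℝ → Fin 3 → X → ℝ) (q : ℝ → X → ℝ),
      (∀ lam k, ContDiff ℝ ∞ (v lam k)) ∧ (∀ lam, ContDiff ℝ ∞ (q lam)) ∧
      (∀ lam z, ∑ k, dx k (v lam k) z = 0) ∧
      (∀ lam, ∀ z ∉ F, q lam z = 0 ∧ ∀ k, v lam k z = 0) ∧
      ∃ C : ℝ, 0 ≤ C ∧ ∀ lam : ℝ, 1 ≤ lam → ∀ k z,
        |v lam k z| ≤ C / lam ^ 2 ∧ ‖fderiv ℝ (v lam k) z‖ ≤ C / lam ∧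
        |- lap (v lam k) z + dx k (q lam) z - R lam k z| ≤ C / lam := by
  obtain ⟨ι, _, G, ψ, hG, hψ, hG0, hR⟩ := h
  obtain ⟨v, q, hv, hq, hdiv, hsupp, hbd⟩ :=
    H51.Osc.corrector (fun k : Fin 3 => ((0, Pi.single k 1) : X)) G ψ hG hψ
  have hs := hsupp F hF.isClosed hG0
  obtain ⟨C, hC0, hC⟩ := hbd F hF
  refine ⟨v, q, hv, hq, hdiv, fun lam z hz => ⟨(hs lam 0 z hz).2, fun k => (hs lam k z hz).1⟩,
    C, hC0, fun lam hl k z => ?_⟩
  have hl0 : 0 < lam := lt_of_lt_of_le one_pos hl
  by_cases hz : z ∈ F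
  · obtain ⟨h1, h2, _, h4⟩ := hC lam hl z hz k
    refine ⟨h1, h2, ?_⟩
    rw [hR]
    exact h4
  · have hU : IsOpen Fᶜ := hF.isClosed.isOpen_compl
    have hv0 : ∀ z ∈ Fᶜ, v lam k z = 0 := fun w hw => (hs lam k w hw).1
    have hq0 : ∀ z ∈ Fᶜ, q lam z = 0 := fun w hw => (hs lam k w hw).2
    have hR0 : R lam k z = 0 := by
      rw [hR]
      apply Finset.sum_eq_zero
      intro m _
      rw [hG0 m k z hz]
      ring
    have hfd : fderiv ℝ (v lam k) z = 0 := by
      have : v lam k =ᶠ[𝓝 z] fun _ => 0 := by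
        filter_upwards [hU.mem_nhds hz] with w hw using hv0 w hw
      rw [this.fderiv_eq]
      simp
    have hlap : lap (v lam k) z = 0 := by
      unfold lap
      apply Finset.sum_eq_zero
      intro j _
      exact H51.Osc.pd_eq_zero_of_open (e := ((0, Pi.single j 1) : X)) hU
        (H51.Osc.pd_eq_zero_of_open (e := ((0, Pi.single j 1) : X)) hU hv0) z hz
    have hdq : dx k (q lam) z = 0 :=
      H51.Osc.pd_eq_zero_of_open (e := ((0, Pi.single k 1) : X)) hU hq0 z hz
    refine ⟨?_, ?_, ?_⟩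
    · rw [hv0 z hz, abs_zero]; positivity
    · rw [hfd, norm_zero]; positivity
    · rw [hlap, hdq, hR0]
      simp only [neg_zero, add_zero, sub_zero, abs_zero]
      positivity

end M6

open M6 in
theorem exists_stepData (st : Stage B) (ε : ℝ) (hε : 0 < ε) (sp : ℝ) (hs : 0 < sp)
    (hsp : 2 * sp ≤ st.s) : ∃ sd : StepData st ε, sd.sp = sp := by
  obtain ⟨chi, hchi, hrange, hsupp, hone⟩ := exists_cutoff B sp hs
  have hK : IsCompact (FF0 B sp) := isCompact_region B sp hs
  have hchi0 : ∀ z ∉ FF0 B sp, chi z = 0 := by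
    intro z hz
    by_contra h
    exact hz (hsupp z h)
  have hN : ContDiff ℝ ∞ (fun z => ∑ a, st.NN a z) := ContDiff.sum fun a _ => st.NN_smooth a
  have hNpos : ∀ z ∈ UU0 B, 0 < ∑ a, st.NN a z := fun z hz => NN_pos st z hz.2 hz.1
  have hN0 : ∀ z, 0 ≤ ∑ a, st.NN a z := fun z => Finset.sum_nonneg fun a _ => st.NN_nonneg a z
  set g : X → ℝ := fun z => chi z / ∑ a, st.NN a z with hgdef
  have hg : ContDiff ℝ ∞ g :=
    div_contDiff hK.isClosed (FF0_sub B hs) hchi hN hchi0 (fun z hz => (hNpos z hz).ne')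
  have hg0 : ∀ z ∉ FF0 B sp, g z = 0 := by
    intro z hz
    simp [hgdef, hchi0 z hz]
  have hgeq : ∀ z, g z * ∑ a, st.NN a z = chi z := by
    intro z
    by_cases hz : z ∈ FF0 B sp
    · have := (hNpos z (FF0_sub B hs hz)).ne'
      simp only [hgdef]
      field_simp
    · rw [hg0 z hz, hchi0 z hz, zero_mul]
  have hrep : ∀ i, Rep (FF0 B sp) (fun lam k z => st.RR ε chi g lam i k z) := fun i =>
    RR_rep st hε.ne' hs hchi hg hchi0 hg0 hgeq i
  choose v q hv hq hdiv hvs C hC0 hC using fun i => (hrep i).correct hK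
  refine ⟨{ sp := sp
            sp_pos := hs
            sp_le := hsp
            chi := chi
            chi_smooth := hchi
            chi_range := hrange
            chi_supp := hsupp
            chi_one := hone
            g := g
            g_smooth := hg
            g_nonneg := fun z => div_nonneg (hrange z).1 (hN0 z)
            g_eq := hgeq
            v := fun lam i k => v i lam k
            q := fun lam i => q i lam
            v_smooth := fun lam i k => hv i lam k
            q_smooth := fun lam i => hq i lam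
            v_div := fun lam i z => hdiv i lam z
            v_supp := fun lam i z hz => ⟨hg0 z (not_FF0 hz), (hvs i lam z (not_FF0 hz)).1,
              (hvs i lam z (not_FF0 hz)).2⟩
            C := ∑ i, C i
            C_nonneg := Finset.sum_nonneg fun i _ => hC0 i
            v_le := ?_
            dv_le := ?_
            corr_le := ?_ }, rfl⟩
  all_goals
    intro lam hl i k z
    have hl0 : 0 < lam := lt_of_lt_of_le one_pos hl
    have hle : C i ≤ ∑ i, C i := Finset.single_le_sum (f := C) (fun i _ => hC0 i)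
      (Finset.mem_univ i)
  · exact (hC i lam hl k z).1.trans (by gcongr)
  · exact (hC i lam hl k z).2.1.trans (by gcongr)
  · exact (hC i lam hl k z).2.2.trans (by gcongr)

end H37.MHD
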